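import Pool.Agent.W900.SP.Sim
import Pool.Agent.W900.SP.Fin

/-!
# Finitely many changes of an oracle do not matter
-/

set_option autoImplicit false

namespace Pool.Agent.TH771.CS

open Pool.Agent.NPC Pool.Agent.H620R2.Gauge Pool.Agent.H622R2
open Pool.Agent.W900.SP (lk lk_map poly_lk nx poly_nx poly_u1 poly_u2)

/-- the answer from the table, or the answer from the oracle -/
noncomputable def anF (L : List (List Bool)) (c t o : List Bool) : Bool :=
  if t ∈ L then lk L c t else decide (o.head? = some true)

/-- one step of the simulation -/
noncomputable def sF (M : Alg) (L : List (List Bool)) (c : List Bool)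
    (p : List Bool × List Bool) : List Bool :=
  if (nx M (unpair p.1).1 (unpair p.1).2).head? = some false then
    pairBits (unpair p.1).1 ((unpair p.1).2 ++
      [anF L c (nx M (unpair p.1).1 (unpair p.1).2).tail p.2])
  else p.1

/-- the question -/
def qF (M : Alg) (s : List Bool) : List (List Bool) := [(nx M (unpair s).1 (unpair s).2).tail]

/-- one step of the simulation -/
noncomputable def stF (M : Alg) (L : List (List Bool)) (c : List Bool) (O : Oracle)
    (s : List Bool) : List Bool :=
  sF M L c (s, (qF M s).map O)

theorem poly_sF (M : Alg) (L : List (List Bool)) (c : List Bool) : Poly (sF M L c) := by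
  have h1 : Poly (fun p : List Bool × List Bool => (unpair p.1).1) := poly_u1 (Poly.fst Poly.id)
  have h2 : Poly (fun p : List Bool × List Bool => (unpair p.1).2) := poly_u2 (Poly.fst Poly.id)
  have h3 := poly_nx M h1 h2
  unfold sF anF
  refine Poly.ite (Poly.decide_eq (Poly.head? h3) (NPC.Poly.const _)) ?_ (Poly.fst Poly.id)
  refine poly_pairBits h1 (Poly.append h2 (Poly.cons ?_ (NPC.Poly.const [])))
  refine Poly.ite ((Poly.decide_mem (Poly.tail h3) (NPC.Poly.const L)).congr
      fun _ => decide_eq_decide.2 Iff.rfl) ?_ ?_
  · exact poly_lk (NPC.Poly.const L) (NPC.Poly.const c) (Poly.tail h3)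
  · exact Poly.decide_eq (Poly.head? (Poly.snd Poly.id)) (NPC.Poly.const _)

theorem isFP_stF (M : Alg) (L : List (List Bool)) (c : List Bool) (O : Oracle) :
    IsFP O (stF M L c O) := by
  refine IsFP.tt (Q := qF M) (H := sF M L c) ?_ (poly_sF M L c)
  unfold qF
  exact Poly.cons (Poly.tail (poly_nx M (poly_u1 Poly.id) (poly_u2 Poly.id))) (NPC.Poly.const [])

/-- the corrected oracle -/
noncomputable def coF (L : List (List Bool)) (c : List Bool) (O : Oracle) : Oracle := fun y =>
  if y ∈ L then lk L c y else O y

/-- one step for the answers -/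
noncomputable def stB (M : Alg) (L : List (List Bool)) (c : List Bool) (O : Oracle)
    (u α : List Bool) : List Bool :=
  if (nx M u α).head? = some false then α ++ [coF L c O (nx M u α).tail] else α

theorem stF_pair (M : Alg) (L : List (List Bool)) (c : List Bool) (O : Oracle) (u α : List Bool) :
    stF M L c O (pairBits u α) = pairBits u (stB M L c O u α) := by
  unfold stF sF qF stB
  simp only [unpair_pairBits, List.map_cons, List.map_nil]
  by_cases h : (nx M u α).head? = some false
  · rw [if_pos h, if_pos h]
    congr 3
    unfold anF coF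
    by_cases h2 : (nx M u α).tail ∈ L
    · rw [if_pos h2, if_pos h2]
    · rw [if_neg h2, if_neg h2]
      cases O (nx M u α).tail <;> simp
  · rw [if_neg h, if_neg h]

theorem iter_stF (M : Alg) (L : List (List Bool)) (c : List Bool) (O : Oracle) (u α : List Bool)
    (n : ℕ) : (stF M L c O)^[n] (pairBits u α) = pairBits u ((stB M L c O u)^[n] α) := by
  induction n with
  | zero => rfl
  | succ n ih => rw [Function.iterate_succ_apply', Function.iterate_succ_apply', ih, stF_pair]

theorem length_iter_stB (M : Alg) (L : List (List Bool)) (c : List Bool) (O : Oracle)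
    (u α : List Bool) (n : ℕ) : ((stB M L c O u)^[n] α).length ≤ α.length + n := by
  induction n with
  | zero => simp
  | succ n ih =>
    rw [Function.iterate_succ_apply']
    have h : ∀ β : List Bool, (stB M L c O u β).length ≤ β.length + 1 := by
      intro β
      unfold stB
      split_ifs
      · simp
      · omega
    have := h ((stB M L c O u)^[n] α)
    omega

/-- the result of the simulation -/
noncomputable def siF (M : Alg) (L : List (List Bool)) (c : List Bool) (O : Oracle)
    (x : List Bool) : List Bool :=
  (nx M (unpair ((stF M L c O)^[M.p.eval x.length] (pairBits (pairBits [] x) []))).1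
    (unpair ((stF M L c O)^[M.p.eval x.length] (pairBits (pairBits [] x) []))).2).tail

theorem isFP_siF (M : Alg) (L : List (List Bool)) (c : List Bool) (O : Oracle) :
    IsFP O (siF M L c O) := by
  have h1 : IsFP O (fun x => (stF M L c O)^[M.p.eval x.length] (pairBits (pairBits [] x) [])) := by
    refine IsFP.loop (isFP_stF M L c O) (g := fun x => pairBits (pairBits [] x) [])
      (poly_pairBits (poly_pairBits (NPC.Poly.const []) Poly.id) (NPC.Poly.const [])) M.p
      (Polynomial.C 2 * Polynomial.X + Polynomial.C 3 + M.p) ?_
    intro x i hi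
    rw [iter_stF, A2.length_pairBits, A2.length_pairBits]
    have h2 := length_iter_stB M L c O (pairBits [] x) [] i
    simp only [Polynomial.eval_add, Polynomial.eval_mul, Polynomial.eval_C, Polynomial.eval_X,
      List.length_nil] at h2 ⊢
    omega
  have h2 : Poly (fun s : List Bool => (nx M (unpair s).1 (unpair s).2).tail) :=
    Poly.tail (poly_nx M (poly_u1 Poly.id) (poly_u2 Poly.id))
  exact IsFP.comp (G := fun s : List Bool => (nx M (unpair s).1 (unpair s).2).tail)
    (IsFP.of_poly h2) h1

theorem run_siF (M : Alg) (L : List (List Bool)) (c : List Bool) (O : Oracle) (u z : List Bool) :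
    ∀ (n : ℕ) (α : List Bool), M.run (coF L c O) (unpair u).2 n α = some z →
      ∀ m, n ≤ m → (nx M u ((stB M L c O u)^[m] α)).tail = z := by
  intro n
  induction n with
  | zero => intro α h; simp [Alg.run] at h
  | succ n ih =>
    intro α h m hm
    rw [A2.run_succ] at h
    by_cases h1 : (M.D (pairBits (unpair u).2 α)).head? = some false
    · rw [if_pos h1] at h
      obtain ⟨m, rfl⟩ : ∃ m', m = m' + 1 := ⟨m - 1, by omega⟩
      rw [Function.iterate_succ_apply]
      have h2 : stB M L c O u α = α ++ [coF L c O (M.D (pairBits (unpair u).2 α)).tail] := by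
        unfold stB nx
        exact if_pos h1
      rw [h2]
      exact ih _ h m (by omega)
    · rw [if_neg h1] at h
      have h2 : stB M L c O u α = α := by
        unfold stB nx
        exact if_neg h1
      have h3 : ∀ j, (stB M L c O u)^[j] α = α := by
        intro j
        induction j with
        | zero => rfl
        | succ j ihj => rw [Function.iterate_succ_apply', ihj, h2]
      rw [h3]
      simpa [nx] using h

/-- finitely many changes do not give new functions -/
theorem isFP_of_finite {O A : Oracle} (h : {y : List Bool | A y ≠ O y}.Finite)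
    {F : List Bool → List Bool} (hF : IsFP A F) : IsFP O F := by
  obtain ⟨M, hM⟩ := hF
  obtain ⟨L, hL⟩ : ∃ L : List (List Bool), ∀ y, A y ≠ O y → y ∈ L := by
    refine ⟨h.toFinset.toList, fun y hy => ?_⟩
    rw [Finset.mem_toList, Set.Finite.mem_toFinset]
    exact hy
  have hco : coF L (L.map A) O = A := by
    funext y
    unfold coF
    by_cases hy : y ∈ L
    · rw [if_pos hy, Bool.eq_iff_iff, lk_map]
      exact ⟨fun h => h.2, fun h => ⟨hy, h⟩⟩
    · rw [if_neg hy]
      by_contra hne
      exact hy (hL y fun h => hne h.symm)
  have h1 : F = siF M L (L.map A) O := by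
    funext x
    symm
    have h2 : M.out (coF L (L.map A) O) x = some (F x) := by
      rw [hco]
      exact hM x
    have h3 := run_siF M L (L.map A) O (pairBits [] x) (F x) (M.p.eval x.length) []
    rw [unpair_pairBits] at h3
    have h4 := h3 h2 (M.p.eval x.length) le_rfl
    unfold siF
    rw [iter_stF, unpair_pairBits]
    exact h4
  rw [h1]
  exact isFP_siF M L _ O

theorem isFP_finite_iff {O A : Oracle} (h : {y : List Bool | A y ≠ O y}.Finite)
    (F : List Bool → List Bool) : H628R3.RO.IsFP A F ↔ H628R3.RO.IsFP O F := by
  rw [Pool.Agent.W900.SP.isFP_iff, Pool.Agent.W900.SP.isFP_iff]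
  refine ⟨isFP_of_finite h, isFP_of_finite (h.subset fun y hy => ?_)⟩
  exact fun h => hy h.symm

end Pool.Agent.TH771.CS
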