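import Pool.Agent.TH771.CS.Plant
import Pool.Agent.TH771.CX.Synd2

/-!
# The guard which reads the markers
-/

set_option autoImplicit false

namespace Pool.Agent.TH771.CS

open Pool.Agent.NPC Pool.Agent.H628R3.RO Pool.Agent.H673R2.OneTT Pool.Agent.H943R5.GC
open Pool.Agent.W900.SQ (kl act_mono le_TT TT_le_iff PV Okk Gd isFP_and)
open Pool.Agent.W900.SP (lk lk_map poly_lk)
open Pool.Agent.TH771.CX (dg dgs poly_dgs)

/-- there is no signature -/
def RK (K s₀ : ℕ) (A : Oracle) (z : List Bool) : Prop :=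
  ∀ s ≤ rd (zm z), s₀ ≤ s → act (zv z) s → ¬ Mk K A (zv z) s 0

/-- there is an announcement -/
def RA (K s₀ : ℕ) (A : Oracle) (z : List Bool) : Prop :=
  ∃ s ≤ rd (zm z), s₀ ≤ s ∧ act (zv z) s ∧ Mk K A (zv z) s 1

/-- the guard -/
def GS (K s₀ : ℕ) (A : Oracle) (κ : ℕ) (z : List Bool) : Prop :=
  PV κ z ∧ RK K s₀ A z ∧ RA K s₀ A z

/-! ### The questions -/

/-- the number of the strings in the block, capped -/
def lb (z : List Bool) (s : ℕ) : ℕ := LB (min s (zm z))

/-- the number of the digits, capped -/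
def bb (z : List Bool) (s : ℕ) : ℕ := bd (min s (zm z))

/-- the strings, capped -/
noncomputable def yq (K : ℕ) (z : List Bool) (s m : ℕ) : List Bool :=
  pairBits (nmB (zv z) (min s (zm z)))
    (List.replicate (min (tw 2 (min s (zm z) + K)) (U2B.Bd K (zm z)) + min m (2 * lb z s)) true)

theorem u_lb {α : Type} [TEnc α] {z : α → List Bool} {s : α → ℕ} (hz : Poly z) (hs : Poly s) :
    UPoly (fun a => lb (z a) (s a)) := by
  have h1 := U2B.u_min hs (U2B.u_zm hz)
  unfold lb LB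
  refine (UPoly.eval h1 (8 * (Polynomial.X + 1) ^ 3)).congr fun a => ?_
  simp

theorem u_bb {α : Type} [TEnc α] {z : α → List Bool} {s : α → ℕ} (hz : Poly z) (hs : Poly s) :
    UPoly (fun a => bb (z a) (s a)) := by
  have h1 := U2B.u_min hs (U2B.u_zm hz)
  unfold bb bd
  exact UPoly.mul (UPoly.const 3) (UPoly.add (UPoly.length (U2B.poly_st h1.toPoly)) (UPoly.const 1))

theorem p_yq (K : ℕ) {α : Type} [TEnc α] {z : α → List Bool} {s m : α → ℕ} (hz : Poly z)
    (hs : Poly s) (hm : Poly m) : Poly (fun a => yq K (z a) (s a) (m a)) := by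
  have hzm := U2B.u_zm hz
  have hs' := U2B.u_min hs hzm
  unfold yq nmB
  refine H622R2.poly_pairBits (H622R2.poly_pairBits (U2B.p_zv hz) (U2B.poly_st hs'.toPoly))
    (p_replicate (UPoly.add (U2B.capped (U2B.u_Bd K hzm) (UPoly.const 2)
      (UPoly.add hs' (UPoly.const K)))
      (U2B.u_min hm (UPoly.mul (UPoly.const 2) (u_lb hz hs)))) true)

theorem lb_eq {z : List Bool} {s : ℕ} (h : s ≤ rd (zm z)) : lb z s = LB s := by
  unfold lb
  rw [min_eq_left (h.trans (U2B.rd_le _))]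

theorem bb_eq {z : List Bool} {s : ℕ} (h : s ≤ rd (zm z)) : bb z s = bd s := by
  unfold bb
  rw [min_eq_left (h.trans (U2B.rd_le _))]

theorem yq_eq {K : ℕ} {z : List Bool} {s m : ℕ} (h : s ≤ rd (zm z)) (hm : m ≤ 2 * LB s) :
    yq K z s m = YY K (zv z) s m := by
  have h0 := lb_eq h
  unfold yq YY
  rw [h0, min_eq_left (h.trans (U2B.rd_le _)), min_eq_left hm]
  have h2 : tw 2 (s + K) ≤ U2B.Bd K (zm z) := by
    have h3 := U2B.TT_add s K
    unfold TT at h3
    rw [h3]
    exact Nat.pow_le_pow_left (U2B.TT_le h) _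
  rw [min_eq_left h2]
  rfl

/-- the questions -/
noncomputable def Qlist (K i : ℕ) (z : List Bool) : List (List Bool) :=
  (U2B.rounds z).flatMap fun s => (List.range (lb z s)).map fun t => yq K z s (2 * t + i)

theorem p_Qlist (K i : ℕ) : Poly (Qlist K i) := by
  unfold Qlist
  refine Poly.flatMap (F := fun z s => (List.range (lb z s)).map fun t => yq K z s (2 * t + i))
    U2B.p_rounds ?_
  refine NPC.Poly.map (F := fun (p : List Bool × ℕ) t => yq K p.1 p.2 (2 * t + i))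
    (UPoly.range (u_lb (Poly.fst Poly.id) (Poly.snd Poly.id))) ?_
  exact p_yq K (Poly.fst (Poly.fst Poly.id)) (Poly.snd (Poly.fst Poly.id))
    (Poly.add (Poly.mul (NPC.Poly.const 2) (Poly.snd Poly.id)) (NPC.Poly.const i))

/-- the word, from the answers -/
noncomputable def wq (K i : ℕ) (z c : List Bool) (s : ℕ) : List Bool :=
  (List.range (lb z s)).map fun t => lk (Qlist K i z) c (yq K z s (2 * t + i))

theorem p_wq (K i : ℕ) {α : Type} [TEnc α] {z c : α → List Bool} {s : α → ℕ} (hz : Poly z)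
    (hc : Poly c) (hs : Poly s) : Poly (fun a => wq K i (z a) (c a) (s a)) := by
  unfold wq
  refine NPC.Poly.map (F := fun a t => lk (Qlist K i (z a)) (c a) (yq K (z a) (s a) (2 * t + i)))
    (UPoly.range (u_lb hz hs)) ?_
  exact poly_lk ((p_Qlist K i).comp (hz.comp (Poly.fst Poly.id))) (hc.comp (Poly.fst Poly.id))
    (p_yq K (hz.comp (Poly.fst Poly.id)) (hs.comp (Poly.fst Poly.id))
      (Poly.add (Poly.mul (NPC.Poly.const 2) (Poly.snd Poly.id)) (NPC.Poly.const i)))

theorem wq_eq {K i : ℕ} (hi : i < 2) {A : Oracle} {z : List Bool} {s : ℕ} (hs : s ≤ rd (zm z)) :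
    wq K i z ((Qlist K i z).map A) s = word K A (zv z) s i := by
  unfold wq word
  rw [lb_eq hs]
  refine List.map_congr_left fun t ht => ?_
  rw [List.mem_range] at ht
  rw [Bool.eq_iff_iff, lk_map, yq_eq hs (by omega)]
  refine ⟨fun h => h.2, fun h => ⟨?_, h⟩⟩
  unfold Qlist
  rw [List.mem_flatMap]
  refine ⟨s, U2B.mem_rounds.2 hs, List.mem_map.2 ⟨t, ?_, yq_eq hs (by omega)⟩⟩
  rw [lb_eq hs]
  exact List.mem_range.2 ht

/-- the test for one round -/
noncomputable def tst (K s₀ i : ℕ) (z c : List Bool) (s : ℕ) : Bool :=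
  (decide (s₀ ≤ s) && decide (min (tw 2 (zv z).length) ((st (min s (zm z))).length + 1) ≤
    (st (min s (zm z))).length)) && (dgs (bb z s) (wq K i z c s)).all fun b => !b

theorem p_tst (K s₀ i : ℕ) {α : Type} [TEnc α] {z c : α → List Bool} {s : α → ℕ} (hz : Poly z)
    (hc : Poly c) (hs : Poly s) : Poly (fun a => tst K s₀ i (z a) (c a) (s a)) := by
  unfold tst
  have h1 := U2B.u_min hs (U2B.u_zm hz)
  have h2 : UPoly (fun a => (st (min (s a) (zm (z a)))).length) :=
    UPoly.length (U2B.poly_st h1.toPoly)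
  refine Poly.and (Poly.and (Poly.decide_le (NPC.Poly.const s₀) hs) (Poly.decide_le
    (U2B.capped (UPoly.add h2 (UPoly.const 1)) (UPoly.const 2)
      (UPoly.length (U2B.p_zv hz))).toPoly h2.toPoly)) ?_
  exact Poly.all (p := fun (_ : α) b => !b) (poly_dgs (u_bb hz hs) (p_wq K i hz hc hs))
    (Poly.not (Poly.snd Poly.id))

theorem tst_iff {K s₀ i : ℕ} (hi : i < 2) {A : Oracle} {z : List Bool} {s : ℕ}
    (hs : s ≤ rd (zm z)) : tst K s₀ i z ((Qlist K i z).map A) s = true ↔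
      s₀ ≤ s ∧ act (zv z) s ∧ Mk K A (zv z) s i := by
  unfold tst
  rw [wq_eq hi hs, bb_eq hs, min_eq_left (hs.trans (U2B.rd_le _)), Bool.and_eq_true,
    Bool.and_eq_true, decide_eq_true_iff, decide_eq_true_iff, List.all_eq_true, and_assoc]
  refine and_congr_right fun _ => and_congr ?_ ?_
  · unfold act TT
    rw [min_le_iff]
    constructor
    · rintro (h | h)
      · exact h
      · omega
    · exact Or.inl
  · unfold Mk dgs
    constructor
    · intro h d hd
      have := h (dg (word K A (zv z) s i) d) (List.mem_map.2 ⟨d, List.mem_range.2 hd, rfl⟩)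
      simpa using this
    · intro h b hb
      obtain ⟨d, hd, rfl⟩ := List.mem_map.1 hb
      rw [h d (List.mem_range.1 hd)]
      rfl

open Classical in
theorem isFP_rk (K s₀ : ℕ) (A : Oracle) :
    IsFP A (fun z => if RK K s₀ A z then [true] else []) := by
  have h := IsFP.tt (A := A) (p_Qlist K 0)
    (H := fun p : List Bool × List Bool =>
      if (U2B.rounds p.1).all (fun s => !tst K s₀ 0 p.1 p.2 s) then [true] else [])
    (Poly.ite (Poly.decide_bool (Poly.all
      (p := fun (p : List Bool × List Bool) s => !tst K s₀ 0 p.1 p.2 s)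
      (U2B.p_rounds.comp (Poly.fst Poly.id)) (Poly.not (p_tst K s₀ 0 (Poly.fst (Poly.fst Poly.id))
        (Poly.snd (Poly.fst Poly.id)) (Poly.snd Poly.id))))) (NPC.Poly.const _) (NPC.Poly.const _))
  refine (congrArg (IsFP A) (funext fun z => ?_)).mp h
  refine if_congr ?_ rfl rfl
  rw [List.all_eq_true]
  unfold RK
  constructor
  · intro h1 s hs h2 h3 h4
    have h5 := h1 s (U2B.mem_rounds.2 hs)
    rw [Bool.not_eq_true', Bool.eq_false_iff] at h5
    exact h5 ((tst_iff (by norm_num) hs).2 ⟨h2, h3, h4⟩)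
  · intro h1 s hs
    have hs' := U2B.mem_rounds.1 hs
    rw [Bool.not_eq_true', Bool.eq_false_iff]
    intro h5
    obtain ⟨h2, h3, h4⟩ := (tst_iff (by norm_num) hs').1 h5
    exact h1 s hs' h2 h3 h4

open Classical in
theorem isFP_ra (K s₀ : ℕ) (A : Oracle) :
    IsFP A (fun z => if RA K s₀ A z then [true] else []) := by
  have h := IsFP.tt (A := A) (p_Qlist K 1)
    (H := fun p : List Bool × List Bool =>
      if (U2B.rounds p.1).any (fun s => tst K s₀ 1 p.1 p.2 s) then [true] else [])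
    (Poly.ite (Poly.decide_bool (Poly.any
      (p := fun (p : List Bool × List Bool) s => tst K s₀ 1 p.1 p.2 s)
      (U2B.p_rounds.comp (Poly.fst Poly.id)) (p_tst K s₀ 1 (Poly.fst (Poly.fst Poly.id))
        (Poly.snd (Poly.fst Poly.id)) (Poly.snd Poly.id)))) (NPC.Poly.const _) (NPC.Poly.const _))
  refine (congrArg (IsFP A) (funext fun z => ?_)).mp h
  refine if_congr ?_ rfl rfl
  rw [List.any_eq_true]
  unfold RA
  constructor
  · rintro ⟨s, hs, h5⟩
    have hs' := U2B.mem_rounds.1 hs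
    exact ⟨s, hs', (tst_iff (by norm_num) hs').1 h5⟩
  · rintro ⟨s, hs, h5⟩
    exact ⟨s, U2B.mem_rounds.2 hs, (tst_iff (by norm_num) hs).2 h5⟩

/-- both tests -/
def RKA (K s₀ : ℕ) (A : Oracle) (z : List Bool) : Prop := RK K s₀ A z ∧ RA K s₀ A z

/-- the format test -/
def PVd (κ : ℕ) (z : List Bool) : Prop := PV κ z

open Classical in
theorem isFP_GS (K s₀ : ℕ) (A : Oracle) (κ : ℕ) :
    IsFP A (fun z => if Okk (GS K s₀ A) κ z then [true] else []) := by
  have h0 : IsFP A (fun z => if PVd κ z then [true] else []) := by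
    refine (congrArg (IsFP A) (funext fun z => ?_)).mp (IsFP.of_poly (A := A) (poly_valid κ))
    exact if_congr Iff.rfl rfl rfl
  have h1 : IsFP A (fun z => if RKA K s₀ A z then [true] else []) :=
    isFP_and (R := RKA K s₀ A) (fun z => Iff.rfl) (isFP_rk K s₀ A) (isFP_ra K s₀ A)
  refine isFP_and (P := PVd κ) (Q := RKA K s₀ A) (fun z => ?_) h0 h1
  unfold RKA PVd Okk GS PV
  tauto

/-- the guard has the required properties -/
theorem gd_of_pm {K s₀ : ℕ} {ρ : List Bool → ℕ} (hρ : ∀ v, act v (ρ v)) (hρ₀ : ∀ v, s₀ ≤ ρ v)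
    {A : Oracle} (h : Pm K s₀ ρ A) : Gd A (GS K s₀ A) := by
  classical
  refine ⟨isFP_GS K s₀ A, ?_, ?_⟩
  · rintro κ z ⟨-, ⟨-, -, hadm⟩, hk, s₁, hs₁, hs₂, ha₁, ha⟩ hv
    obtain rfl := (h.an _ _ hs₂ ha₁).1 ha
    have hB : ∃ s, ρ (zv z) ≤ s ∧ Bad A (zv z) s :=
      ⟨rd (zm z), hs₁, zu z, zm z, U5.le_TT_rd _, hadm, hv⟩
    have h1 := Nat.find_spec hB
    have h2 : Nat.find hB ≤ rd (zm z) :=
      Nat.find_min' hB ⟨hs₁, zu z, zm z, U5.le_TT_rd _, hadm, hv⟩
    have h4 : s₀ ≤ Nat.find hB := (hρ₀ _).trans h1.1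
    have h5 : act (zv z) (Nat.find hB) := act_mono h1.1 (hρ _)
    have h3 := (h.ki (zv z) (Nat.find hB) h4 h5).2
      ⟨h1.1, h1.2, fun s' hs' h4 h5 => Nat.find_min hB hs' ⟨h4, h5⟩⟩
    exact hk _ h2 h4 h5 h3
  · intro v hv
    refine ⟨(Polynomial.X + Polynomial.C 2) ^ (2 ^ ex v) + Polynomial.C (TT (ρ v)), fun u => ?_⟩
    simp only [Polynomial.eval_add, Polynomial.eval_pow, Polynomial.eval_X, Polynomial.eval_C]
    have hadm : Adm v u ((u.length + 2) ^ 2 ^ ex v + TT (ρ v)) := by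
      unfold Adm tw
      exact Nat.le_add_right _ _
    have hr : ρ v ≤ rd ((u.length + 2) ^ 2 ^ ex v + TT (ρ v)) := by
      rw [← TT_le_iff]
      exact (Nat.le_add_left _ _).trans (U5.le_TT_rd _)
    refine ⟨hadm, ?_⟩
    unfold Okk GS PV RK RA
    rw [zv_inst, zu_inst, zm_inst]
    refine ⟨rfl, ⟨rfl, act_mono hr (hρ v), hadm⟩, fun s _ hs₀ ha h1 => ?_,
      ρ v, hr, hρ₀ v, hρ v, (h.an _ _ (hρ₀ v) (hρ v)).2 rfl⟩
    obtain ⟨-, ⟨u', m', -, h4, h5⟩, -⟩ := (h.ki v s hs₀ ha).1 h1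
    exact hv u' m' h4 h5

end Pool.Agent.TH771.CS
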