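import Pool.Agent.TH771.CS.Guard
import Pool.Agent.TH771.CS.Finite
import Pool.Agent.W900.SQ.Fin
import Pool.Agent.H620R2.Gauge2.CoverE
import Pool.Agent.H620R2.Gauge2.CoverN
import Pool.Agent.H620R2.Gauge2.Null
import Pool.Agent.H620R2.GaugeX.KeyX
import Pool.Agent.H620R2.Gauge.P

/-!
# Complete sets and optimal proof systems after unboundedly many changes
-/

set_option autoImplicit false

namespace Pool.Agent.TH771.CS

open MeasureTheory Filter Pool.Agent.NPC Pool.Agent.H943R5.GC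
open Pool.Agent.H628R3.RO (Oracle randomOracle)
open Pool.Agent.W900.SQ (kl kl_unique act_mono le_TT exists_act Gd)
open Pool.Agent.W900.SP (Inv)
open Pool.Agent.W900.CH (Close dist finite_short ae_far_P)
open Pool.Agent.TH771.CX (jst)

/-- if `G` does not tend to infinity then only finitely many strings can be changed -/
theorem finite_of_close {g : ℕ → ℝ} (hg : ¬ Tendsto g atTop atTop) {O A : Oracle}
    (h : Close g O A) : {y : List Bool | A y ≠ O y}.Finite := by
  rw [tendsto_atTop] at hg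
  push Not at hg
  obtain ⟨c, hc⟩ := hg
  have h1 : ∃ᶠ n : ℕ in atTop, (dist O A n : ℝ) < c :=
    (hc.and_eventually h).mono fun n hn => lt_of_le_of_lt hn.2 hn.1
  by_contra hinf
  obtain ⟨C, hC⟩ := exists_nat_gt c
  obtain ⟨F, hF, hF2⟩ := Set.Infinite.exists_subset_card_eq hinf C
  obtain ⟨n, hn, hn2⟩ := frequently_atTop.1 h1 (F.sup List.length)
  have h2 : C ≤ dist O A n := by
    rw [← hF2, ← Set.ncard_coe_finset]
    refine Set.ncard_le_ncard (fun y hy => ⟨?_, hF hy⟩)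
      ((finite_short n).subset fun y hy => hy.1)
    exact (Finset.le_sup (f := List.length) hy).trans hn
  have h3 : (C : ℝ) ≤ (dist O A n : ℝ) := by exact_mod_cast h2
  linarith

theorem exists_schedule' {G : ℕ → ℝ} (hG : Tendsto G atTop atTop) (s₀ : ℕ) :
    ∃ ρ : List Bool → ℕ, (∀ v, act v (ρ v)) ∧ (∀ v, s₀ ≤ ρ v) ∧
      ∀ v n, ρ v ≤ n → 2 * ((Pool.Agent.H583R2.idx v : ℝ) + 1) ≤ G n := by
  have h1 : ∀ v : List Bool, ∃ s, act v s ∧ s₀ ≤ s ∧ ∀ n, s ≤ n →
      2 * ((Pool.Agent.H583R2.idx v : ℝ) + 1) ≤ G n := by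
    intro v
    obtain ⟨s, hs⟩ := exists_act v
    obtain ⟨N, hN⟩ := eventually_atTop.1 (hG.eventually_ge_atTop
      (2 * ((Pool.Agent.H583R2.idx v : ℝ) + 1)))
    exact ⟨s + s₀ + N, act_mono (by omega) hs, by omega, fun n hn => hN n (by omega)⟩
  choose ρ h2 h3 h4 using h1
  exact ⟨ρ, h2, h3, h4⟩

/-- Few changes give a guard. -/
theorem exists_changed {K : ℕ} (hK : Loc K Bad) {O : Oracle} {s₀ : ℕ}
    (hO : ∀ s ≥ s₀, ∀ v, act v s → ∀ i < 2, ¬ Mk K O v s i) {G : ℕ → ℝ}
    (hG : Tendsto G atTop atTop) : ∃ A, Close G O A ∧ ∃ Γ, Gd A Γ := by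
  classical
  obtain ⟨ρ, h1, h2, h3⟩ := exists_schedule' hG s₀
  obtain ⟨A, h4, h5⟩ := exists_pm hK h1 hO
  refine ⟨A, ?_, _, gd_of_pm h1 h2 h4⟩
  obtain ⟨κ, hκ⟩ : ∃ κ : List Bool → ℕ, ∀ v s, kl ρ A v s → κ v = s := by
    refine ⟨fun v => if h : ∃ s, kl ρ A v s then h.choose else 0, fun v s hs => ?_⟩
    have h5 : ∃ s, kl ρ A v s := ⟨s, hs⟩
    show dite _ _ _ = s
    rw [dif_pos h5]
    exact kl_unique h5.choose_spec hs
  obtain ⟨F, hF⟩ : ∃ F : ℕ × Bool → List Bool, F = fun c => if c.2 = true then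
    fx K O (st c.1) (κ (st c.1)) 0 else fx K O (st c.1) (ρ (st c.1)) 1 := ⟨_, rfl⟩
  unfold Close
  filter_upwards [hG.eventually_ge_atTop 0] with n hn0
  have hsub : {y : List Bool | y.length ≤ n ∧ A y ≠ O y} ⊆
      (((Finset.range ⌊G n / 2⌋₊) ×ˢ (Finset.univ : Finset Bool)).image F : Set (List Bool)) := by
    rintro y ⟨hn, hy⟩
    rw [Finset.coe_image]
    have hst : ∀ v : List Bool, st (Pool.Agent.H583R2.idx v) = v := fun v =>
      Pool.Agent.H583R2.str_idx v
    have key : ∀ v s i, y = fx K O v s i → ρ v ≤ s →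
        Pool.Agent.H583R2.idx v < ⌊G n / 2⌋₊ := by
      intro v s i h5 h6
      have h7 := N2.le_length_YY K v s (2 * jst (word K O v s i) (bd s) 0 + i)
      have h7' : TT (s + K) ≤ y.length := by
        rw [h5]
        exact h7
      have h8 : TT s ≤ TT (s + K) := N2.TT_mono (by omega)
      have h9 := le_TT s
      have h10 := h3 v n (by omega)
      refine Nat.lt_of_succ_le (Nat.le_floor ?_)
      push_cast
      linarith
    rcases h5 y hy with ⟨v, s, h6, h7⟩ | ⟨v, h6⟩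
    · refine ⟨(Pool.Agent.H583R2.idx v, true), ?_, ?_⟩
      · rw [Finset.mem_coe, Finset.mem_product, Finset.mem_range]
        exact ⟨key v s 0 h6 h7.1, Finset.mem_univ _⟩
      · rw [hF]
        dsimp only
        rw [if_pos rfl, hst, hκ v s h7, ← h6]
    · refine ⟨(Pool.Agent.H583R2.idx v, false), ?_, ?_⟩
      · rw [Finset.mem_coe, Finset.mem_product, Finset.mem_range]
        exact ⟨key v _ 1 h6 le_rfl, Finset.mem_univ _⟩
      · rw [hF]
        dsimp only
        rw [if_neg (by simp), hst, ← h6]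
  have h6 : dist O A n ≤ ⌊G n / 2⌋₊ * 2 := by
    unfold Pool.Agent.W900.CH.dist
    refine (Set.ncard_le_ncard hsub (Finset.finite_toSet _)).trans ?_
    rw [Set.ncard_coe_finset]
    refine Finset.card_image_le.trans ?_
    rw [Finset.card_product, Finset.card_range, Finset.card_univ, Fintype.card_bool]
  have h7 : (⌊G n / 2⌋₊ : ℝ) ≤ G n / 2 := Nat.floor_le (by linarith)
  have h8 : (dist O A n : ℝ) ≤ (⌊G n / 2⌋₊ : ℝ) * 2 := by exact_mod_cast h6
  linarith

section

open Pool.Agent.H620R2.Gauge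

/-- Relative to `A`, `NP` is not contained in `coNP/poly`, `PSPACE` not in `PH/poly`, and `EXP`
not in `PSPACE/poly`. -/
def Far (A : Pool.Agent.H628R3.RO.Oracle) : Prop :=
  (∃ L, IsNP A L ∧ ¬ WithAdvice (IsNP A) Lᶜ) ∧ (∃ L, IsPSPACE A L ∧ ¬ IsPHpoly A L) ∧
    ∃ L, IsEXP A L ∧ ¬ WithAdvice (IsPSPACE A) L

theorem ae_Far {g : ℕ → ℝ} (hg : ∀ ε : ℝ, 0 < ε → ∃ᶠ n : ℕ in atTop, g n ≤ 2 ^ (n : ℝ) ^ ε) :
    ∀ᵐ O ∂randomOracle, ∀ A : Pool.Agent.H628R3.RO.Oracle, Close g O A → Far A := by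
  have h1 := ae_far_P (S := {A : Pool.Agent.H628R3.RO.Oracle | WithAdvice (IsNP A) (hitLang A)ᶜ} ∪
      ({A : Pool.Agent.H628R3.RO.Oracle | IsPHpoly A (parLang A)} ∪
        {A : Pool.Agent.H628R3.RO.Oracle | WithAdvice (IsPSPACE A) (farLang A)}))
    (fun f hf => null_union (nullN hf _ fun A hA => hA)
      (null_union (null_of_frequently f hf _ fun A hA => hA) (nullE hf _ fun A hA => hA))) hg
  filter_upwards [h1] with O hO A hA
  have h2 := hO A hA
  simp only [Set.mem_union, Set.mem_ofPred_eq, not_or] at h2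
  obtain ⟨h3, h4, h5⟩ := h2
  exact ⟨⟨_, hitLang_np A, h3⟩, ⟨_, parLang_pspace A, h4⟩, ⟨_, farLang_exp A, h5⟩⟩

end

theorem id_small {ε : ℝ} (hε : 0 < ε) : ∀ᶠ n : ℕ in atTop, (n : ℝ) ≤ 2 ^ (n : ℝ) ^ ε := by
  have h1 := (tendsto_natCast_atTop_atTop (R := ℝ)).eventually
    (Pool.Agent.H622R2.Exp.logb_le_rpow hε)
  filter_upwards [h1, eventually_ge_atTop 1] with n h2 h3
  have h4 : (0 : ℝ) < n := by exact_mod_cast h3
  calc (n : ℝ) = 2 ^ Real.logb 2 n := (Real.rpow_logb (by norm_num) (by norm_num) h4).symm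
    _ ≤ 2 ^ (n : ℝ) ^ ε := Real.rpow_le_rpow_of_exponent_le (by norm_num) h2

/-- **The threshold**: a property which follows from a guard, fails for almost all oracles and does
not depend on finitely many strings holds after changes of a random oracle if and only if an
unbounded number of strings may be changed. -/
theorem main_changed {X : Oracle → Prop} (hX : ∀ A Γ, Gd A Γ → X A)
    (hae : ∀ᵐ A ∂randomOracle, ¬ X A) (hinv : Inv X) :
    ∀ᵐ O ∂randomOracle, ∀ G : ℕ → ℝ,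
      (¬ Tendsto G atTop atTop → ∀ A, Close G O A → ¬ X A) ∧
      (Tendsto G atTop atTop → ∃ A, Close G O A ∧ X A ∧ Far A) := by
  obtain ⟨K, hK⟩ := exists_loc
  have h0 := ae_Far (g := fun n => (n : ℝ)) fun ε hε => (id_small hε).frequently
  filter_upwards [hae, ae_no_mk K, h0] with O h1 h2 h3 G
  refine ⟨fun hG A hA hXA => h1 ?_, fun hG => ?_⟩
  · exact hinv A O (isFP_finite_iff (finite_of_close hG hA)) hXA
  · obtain ⟨s₀, hs₀⟩ := h2
    have hG' : Tendsto (fun n : ℕ => min (G n) n) atTop atTop := by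
      refine tendsto_atTop.2 fun b => ?_
      filter_upwards [hG.eventually_ge_atTop b,
        (tendsto_natCast_atTop_atTop (R := ℝ)).eventually_ge_atTop b] with n h4 h5
      exact le_min h4 h5
    obtain ⟨A, h4, Γ, h5⟩ := exists_changed hK hs₀ hG'
    have h6 : Close G O A := by
      unfold Close at h4 ⊢
      filter_upwards [h4] with n hn
      exact hn.trans (min_le_left _ _)
    have h7 : Close (fun n => (n : ℝ)) O A := by
      unfold Close at h4 ⊢
      filter_upwards [h4] with n hn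
      exact hn.trans (min_le_right _ _)
    exact ⟨A, h6, hX A Γ h5, h3 A h7⟩

end Pool.Agent.TH771.CS
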