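import Pool.Agent.TH771.CS.Word
import Pool.Agent.W900.SQ.Plant
import Pool.Agent.W900.CH.PLev

/-!
# Writing announcements and signatures into a given oracle
-/

set_option autoImplicit false

namespace Pool.Agent.TH771.CS

open Pool.Agent.NPC Pool.Agent.H628R3.RO Pool.Agent.H943R5.GC MeasureTheory Filter
open Pool.Agent.W900.SQ (kl plant act_mono le_TT)
open Pool.Agent.TH771.CX (jst jst_lt)

/-- `A` has the announcements and the signatures for the schedule `ρ`, from round `s₀` on. -/
structure Pm (K s₀ : ℕ) (ρ : List Bool → ℕ) (A : Oracle) : Prop where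
  ki : ∀ v s, s₀ ≤ s → act v s → (Mk K A v s 0 ↔ kl ρ A v s)
  an : ∀ v s, s₀ ≤ s → act v s → (Mk K A v s 1 ↔ s = ρ v)

theorem fx_inj {K : ℕ} {O : Oracle} {v v' : List Bool} {s s' i i' : ℕ} (hi : i < 2) (hi' : i' < 2)
    (h : fx K O v s i = fx K O v' s' i') : v = v' ∧ s = s' ∧ i = i' := by
  obtain ⟨h1, h2, h3⟩ := N2.YY_inj2 h
  exact ⟨h1, h2, by omega⟩

/-- The construction. -/
theorem exists_pm {K : ℕ} (hK : Loc K Bad) {ρ : List Bool → ℕ} (hρ : ∀ v, act v (ρ v))
    {O : Oracle} {s₀ : ℕ} (hO : ∀ s ≥ s₀, ∀ v, act v s → ∀ i < 2, ¬ Mk K O v s i) :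
    ∃ A : Oracle, Pm K s₀ ρ A ∧ ∀ y, A y ≠ O y →
      (∃ v s, y = fx K O v s 0 ∧ kl ρ A v s) ∨ ∃ v, y = fx K O v (ρ v) 1 := by
  classical
  obtain ⟨B, hB⟩ : ∃ B : Oracle, ∀ y, B y = (O y ^^ decide (∃ v, y = fx K O v (ρ v) 1)) :=
    ⟨_, fun _ => rfl⟩
  have hB0 : ∀ v s t, B (YY K v s (2 * t + 0)) = O (YY K v s (2 * t + 0)) := by
    intro v s t
    rw [hB]
    have : ¬ ∃ v', YY K v s (2 * t + 0) = fx K O v' (ρ v') 1 := by
      rintro ⟨v', h⟩
      obtain ⟨-, -, h3⟩ := N2.YY_inj2 h
      omega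
    rw [decide_eq_false this, Bool.xor_false]
  obtain ⟨A, h1, h2⟩ := plant (ι := List Bool × ℕ) (fun c => fx K O c.1 c.2 0)
    (fun c c' h => by
      obtain ⟨h3, h4, -⟩ := fx_inj (by norm_num) (by norm_num) h
      exact Prod.ext h3 h4)
    (fun A c => (O (fx K O c.1 c.2 0) ^^ decide (kl ρ A c.1 c.2)) = true) (by
      rintro ⟨v, s⟩ A A' hA h0
      replace hA : ∀ y : List Bool, y.length < (fx K O v s 0).length → A y = A' y := hA
      have h6 : TT (s + K) ≤ (fx K O v s 0).length := N2.le_length_YY K v s _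
      have key : ∀ A A' : Oracle, (∀ y : List Bool, y.length < (fx K O v s 0).length → A y = A' y) →
          kl ρ A v s → kl ρ A' v s := by
        rintro A A' hA ⟨h3, h4, h5⟩
        have ha : act v s := act_mono h3 (hρ v)
        refine ⟨h3, hK v s ha A A' (fun y hy => hA y (by omega)) h4, fun s' hs' h7 h8 => ?_⟩
        refine h5 s' hs' h7 (hK v s' (act_mono h7 (hρ v)) A' A (fun y hy => (hA y ?_).symm) h8)
        have h9 : TT (s' + K) ≤ TT (s + K) := N2.TT_mono (by omega)
        omega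
      have h7 : kl ρ A v s ↔ kl ρ A' v s :=
        ⟨key A A' hA, key A' A fun y hy => (hA y hy).symm⟩
      dsimp only at h0 ⊢
      rwa [decide_eq_decide.2 h7] at h0) B
  have h1' : ∀ v s, A (fx K O v s 0) = (O (fx K O v s 0) ^^ decide (kl ρ A v s)) := by
    intro v s
    have := h1 (v, s)
    rw [Bool.eq_iff_iff]
    exact this
  have hA0 : ∀ v s t, A (YY K v s (2 * t + 0)) = (O (YY K v s (2 * t + 0)) ^^
      (decide (t = jst (word K O v s 0) (bd s) 0) && decide (kl ρ A v s))) := by
    intro v s t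
    by_cases ht : t = jst (word K O v s 0) (bd s) 0
    · have h3 := h1' v s
      unfold fx at h3
      rw [← ht] at h3
      rw [h3, decide_eq_true ht, Bool.true_and]
    · rw [h2, hB0, decide_eq_false ht, Bool.false_and, Bool.xor_false]
      intro c h
      obtain ⟨h3, h4, h5⟩ := N2.YY_inj2 h
      rw [h3, h4] at h5
      omega
  have hA1 : ∀ v s t, A (YY K v s (2 * t + 1)) = (O (YY K v s (2 * t + 1)) ^^
      (decide (t = jst (word K O v s 1) (bd s) 0) && decide (s = ρ v))) := by
    intro v s t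
    rw [h2, hB]
    · congr 1
      rw [Bool.eq_iff_iff, decide_eq_true_iff, Bool.and_eq_true, decide_eq_true_iff,
        decide_eq_true_iff]
      constructor
      · rintro ⟨v', h⟩
        obtain ⟨h3, h4, h5⟩ := N2.YY_inj2 h
        subst h3
        subst h4
        exact ⟨by omega, rfl⟩
      · rintro ⟨h3, h4⟩
        refine ⟨v, ?_⟩
        unfold fx
        rw [← h4, ← h3]
    · intro c h
      obtain ⟨-, -, h5⟩ := N2.YY_inj2 h
      omega
  refine ⟨A, ⟨fun v s hs ha => ?_, fun v s hs ha => ?_⟩, fun y hy => ?_⟩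
  · by_cases hk : kl ρ A v s
    · refine ⟨fun _ => hk, fun _ => mk_of_change (O := O) fun t _ => ?_⟩
      rw [hA0, decide_eq_true hk, Bool.and_true]
    · refine ⟨fun h => absurd h ?_, fun h => absurd h hk⟩
      rw [mk_congr (O := O)]
      · exact hO s hs v ha 0 (by norm_num)
      · intro t _
        rw [hA0, decide_eq_false hk, Bool.and_false, Bool.xor_false]
  · by_cases hk : s = ρ v
    · refine ⟨fun _ => hk, fun _ => mk_of_change (O := O) fun t _ => ?_⟩
      rw [hA1, decide_eq_true hk, Bool.and_true]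
    · refine ⟨fun h => absurd h ?_, fun h => absurd h hk⟩
      rw [mk_congr (O := O)]
      · exact hO s hs v ha 1 (by norm_num)
      · intro t _
        rw [hA1, decide_eq_false hk, Bool.and_false, Bool.xor_false]
  · by_cases hc : ∃ c : List Bool × ℕ, fx K O c.1 c.2 0 = y
    · obtain ⟨c, hc⟩ := hc
      left
      refine ⟨c.1, c.2, hc.symm, ?_⟩
      by_contra hk
      apply hy
      have h3 := h1' c.1 c.2
      rw [hc, decide_eq_false hk, Bool.xor_false] at h3
      exact h3
    · right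
      push Not at hc
      by_contra hn
      apply hy
      rw [h2 y hc, hB, decide_eq_false hn, Bool.xor_false]

end Pool.Agent.TH771.CS
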