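import Pool.Agent.TH771.CX.Synd1
import Pool.Agent.W900.RB.Comb
import Pool.Agent.H943R5.GC.U2B
import Pool.Agent.H943R5.GC.N2
import Pool.Agent.H943R5.GC.U5

/-!
# Markers which can be written into every oracle with one change

A block is a list of strings; the marker is present if the syndrome of the word of the answers is
zero. In a random oracle this happens with probability `2 ^ (-b)`, where `b` is the number of the
digits of the syndrome, and one change of one string suffices to write the marker.
-/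

set_option autoImplicit false

namespace Pool.Agent.TH771.CS

open Pool.Agent.NPC Pool.Agent.H628R3.RO Pool.Agent.H943R5.GC MeasureTheory Filter
open Pool.Agent.TH771.CX (dg dgs jst jst_lt dg_jst dg_flip)

/-- the number of the strings in a block of round `s` -/
def LB (s : ℕ) : ℕ := 8 * (s + 1) ^ 3

/-- the number of the digits of the syndrome in round `s` -/
def bd (s : ℕ) : ℕ := 3 * ((st s).length + 1)

theorem two_pow_bd (s : ℕ) : 2 ^ bd s ≤ LB s := by
  have h := (U5.length_st s).1
  unfold bd LB
  calc 2 ^ (3 * ((st s).length + 1)) = 8 * (2 ^ (st s).length) ^ 3 := by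
        rw [mul_comm 3, pow_mul, pow_succ 2 (st s).length]
        ring
    _ ≤ 8 * (s + 1) ^ 3 := Nat.mul_le_mul_left _ (Nat.pow_le_pow_left h 3)

theorem le_two_pow_bd (s : ℕ) : (s + 1) ^ 3 ≤ 2 ^ bd s := by
  have h := (U5.length_st s).2
  unfold bd
  calc (s + 1) ^ 3 ≤ (2 ^ ((st s).length + 1)) ^ 3 := Nat.pow_le_pow_left (by omega) 3
    _ = _ := by rw [← pow_mul, mul_comm]

/-- the answers in the block -/
def word (K : ℕ) (A : Oracle) (v : List Bool) (s i : ℕ) : List Bool :=
  (List.range (LB s)).map fun t => A (YY K v s (2 * t + i))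

/-- the marker -/
def Mk (K : ℕ) (A : Oracle) (v : List Bool) (s i : ℕ) : Prop :=
  ∀ d < bd s, dg (word K A v s i) d = false

/-- the string that has to be changed -/
def fx (K : ℕ) (O : Oracle) (v : List Bool) (s i : ℕ) : List Bool :=
  YY K v s (2 * jst (word K O v s i) (bd s) 0 + i)

theorem length_word (K : ℕ) (A : Oracle) (v : List Bool) (s i : ℕ) :
    (word K A v s i).length = LB s := by
  unfold word
  rw [List.length_map, List.length_range]

theorem getD_word (K : ℕ) (A : Oracle) (v : List Bool) (s i : ℕ) {t : ℕ} (ht : t < LB s) :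
    (word K A v s i).getD t false = A (YY K v s (2 * t + i)) := by
  unfold word
  rw [List.getD_eq_getElem?_getD, List.getElem?_map, List.getElem?_range ht]
  rfl

/-- the marker is written by the change -/
theorem mk_of_change {K : ℕ} {O A : Oracle} {v : List Bool} {s i : ℕ}
    (h : ∀ t < LB s, A (YY K v s (2 * t + i)) =
      (O (YY K v s (2 * t + i)) ^^ decide (t = jst (word K O v s i) (bd s) 0))) :
    Mk K A v s i := by
  intro d hd
  have h1 := dg_jst (l := word K O v s i) (l' := word K A v s i) (b := bd s) (c := 0)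
    (by rw [length_word, length_word]) (by rw [length_word]; exact two_pow_bd s) (by
      intro j hj
      rw [length_word] at hj
      rw [getD_word _ _ _ _ _ hj, getD_word _ _ _ _ _ hj]
      exact h j hj) hd
  rw [h1, Nat.zero_testBit]

theorem mk_congr {K : ℕ} {O A : Oracle} {v : List Bool} {s i : ℕ}
    (h : ∀ t < LB s, A (YY K v s (2 * t + i)) = O (YY K v s (2 * t + i))) :
    Mk K A v s i ↔ Mk K O v s i := by
  have : word K A v s i = word K O v s i := by
    unfold word
    refine List.map_congr_left fun t ht => ?_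
    exact h t (List.mem_range.1 ht)
  unfold Mk
  rw [this]

/-! ### The probability of a marker -/

/-- `a`, changed at `τ` -/
def flp {L : ℕ} (a : Fin L → Bool) (τ : ℕ) : Fin L → Bool := fun t => a t ^^ decide (t.val = τ)

theorem dg_flp {L : ℕ} (a : Fin L → Bool) {τ : ℕ} (hτ : τ < L) (d : ℕ) :
    dg (List.ofFn (flp a τ)) d = (dg (List.ofFn a) d ^^ τ.testBit d) := by
  refine dg_flip (by simp) (by simpa using hτ) ?_ d
  intro j hj
  rw [List.length_ofFn] at hj
  rw [List.getD_eq_getElem?_getD, List.getD_eq_getElem?_getD, List.getElem?_ofFn,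
    List.getElem?_ofFn, dif_pos hj, dif_pos hj]
  rfl

theorem card_zero {L b : ℕ} (hL : 2 ^ b ≤ L)
    [DecidablePred fun a : Fin L → Bool => ∀ d < b, dg (List.ofFn a) d = false] :
    ((Finset.univ.filter fun a : Fin L → Bool => ∀ d < b, dg (List.ofFn a) d = false).card : ℝ) ≤
      (1 / 2) ^ b * 2 ^ Fintype.card (Fin L) := by
  have h1 : (Finset.univ.filter fun a : Fin L → Bool =>
      ∀ d < b, dg (List.ofFn a) d = false).card * 2 ^ b ≤ 2 ^ L := by
    have h2 : ((Finset.univ.filter fun a : Fin L → Bool =>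
        ∀ d < b, dg (List.ofFn a) d = false) ×ˢ Finset.range (2 ^ b)).card ≤
        (Finset.univ : Finset (Fin L → Bool)).card := by
      refine Finset.card_le_card_of_injOn (fun q => flp q.1 q.2)
        (fun _ _ => Finset.mem_coe.2 (Finset.mem_univ _)) ?_
      rintro ⟨a, τ⟩ h3 ⟨a', τ'⟩ h4 h5
      rw [Finset.mem_coe, Finset.mem_product, Finset.mem_filter, Finset.mem_range] at h3 h4
      obtain ⟨⟨_, h3⟩, hτ⟩ := h3
      obtain ⟨⟨_, h4⟩, hτ'⟩ := h4
      dsimp only at h3 h4 h5 hτ hτ'
      have h6 : τ = τ' := by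
        refine Nat.eq_of_testBit_eq fun d => ?_
        by_cases hd : d < b
        · have e1 := dg_flp a (hτ.trans_le hL) d
          have e2 := dg_flp a' (hτ'.trans_le hL) d
          rw [h3 d hd, Bool.false_xor] at e1
          rw [h4 d hd, Bool.false_xor] at e2
          rw [← e1, ← e2, h5]
        · push Not at hd
          have e3 : 2 ^ b ≤ 2 ^ d := Nat.pow_le_pow_right (by norm_num) hd
          rw [Nat.testBit_lt_two_pow (by omega), Nat.testBit_lt_two_pow (by omega)]
      subst h6
      have h7 : a = a' := by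
        funext t
        have := congrFun h5 t
        unfold flp at this
        revert this
        cases a t <;> cases a' t <;> cases decide (t.val = τ) <;> simp
      rw [h7]
    rw [Finset.card_product, Finset.card_range, Finset.card_univ, Fintype.card_fun,
      Fintype.card_bool, Fintype.card_fin] at h2
    exact h2
  rw [Fintype.card_fin]
  have h3 : (((Finset.univ.filter fun a : Fin L → Bool =>
      ∀ d < b, dg (List.ofFn a) d = false).card : ℝ)) * 2 ^ b ≤ 2 ^ L := by exact_mod_cast h1
  rw [one_div, inv_pow, inv_mul_eq_div, le_div_iff₀ (by positivity)]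
  exact h3

theorem card_zero' {L b : ℕ} (hL : 2 ^ b ≤ L) (i₁ : Fintype (Fin L → Bool))
    (i₂ : DecidablePred fun a : Fin L → Bool => ∀ d < b, dg (List.ofFn a) d = false) :
    (((@Finset.univ _ i₁).filter fun a : Fin L → Bool =>
      ∀ d < b, dg (List.ofFn a) d = false).card : ℝ) ≤
      (1 / 2) ^ b * 2 ^ Fintype.card (Fin L) := by
  obtain rfl : i₁ = Pi.instFintype := Subsingleton.elim _ _
  exact card_zero hL

/-- the probability of a marker in a random oracle -/
theorem prob_mk (K : ℕ) (v : List Bool) (s i : ℕ) :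
    randomOracle {O | Mk K O v s i} ≤ ENNReal.ofReal ((1 / 2) ^ bd s) := by
  classical
  have h := Pool.Agent.W900.RB.prob_le (I := Fin (LB s)) (fun t => YY K v s (2 * t.val + i))
    (by
      intro t t' h
      obtain ⟨-, -, h3⟩ := N2.YY_inj2 h
      exact Fin.ext (by omega))
    (fun a => ∀ d < bd s, dg (List.ofFn a) d = false) ((1 / 2) ^ bd s)
    (card_zero' (two_pow_bd s) _ _)
  refine (measure_mono ?_).trans h
  intro O hO d hd
  have h1 := hO d hd
  have h2 : word K O v s i = List.ofFn (fun t : Fin (LB s) => O (YY K v s (2 * t.val + i))) := by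
    unfold word
    apply List.ext_getElem
    · simp
    · intro n h1 h2
      simp
  rw [← h2]
  exact h1

theorem idx_le_of_act {v : List Bool} {s : ℕ} (h : act v s) : Pool.Agent.H583R2.idx v ≤ s := by
  have h1 : TT v.length ≤ (st s).length := h
  have h2 := Pool.Agent.H583R2.length_str_le s
  have h3 := (Pool.Agent.H583R2.idxR_bounds v.reverse).2
  have h4 : 2 ^ (v.length + 1) ≤ TT v.length := by
    unfold TT tw
    refine Nat.pow_le_pow_right (by norm_num) ?_
    exact Nat.lt_two_pow_self
  unfold Pool.Agent.H583R2.idx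
  rw [List.length_reverse] at h3
  unfold H943R5.GC.st at h1
  omega

/-- In almost every oracle there are no markers of active codes in the late rounds. -/
theorem ae_no_mk (K : ℕ) : ∀ᵐ O ∂randomOracle, ∃ s₀ : ℕ, ∀ s ≥ s₀, ∀ v, act v s →
    ∀ i < 2, ¬ Mk K O v s i := by
  set E : ℕ → Set Oracle := fun s => {O | ∃ v, act v s ∧ ∃ i < 2, Mk K O v s i} with hE
  have hpr : ∀ s, randomOracle (E s) ≤ ENNReal.ofReal (2 * (1 / ((s + 1 : ℕ) : ℝ) ^ 2)) := by
    intro s
    have h1 : E s ⊆ ⋃ c ∈ (Finset.range (s + 1)) ×ˢ (Finset.range 2),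
        {O | Mk K O (st c.1) s c.2} := by
      rintro O ⟨v, hv, i, hi, h⟩
      simp only [Set.mem_iUnion]
      refine ⟨(Pool.Agent.H583R2.idx v, i), ?_, ?_⟩
      · rw [Finset.mem_product, Finset.mem_range, Finset.mem_range]
        exact ⟨Nat.lt_succ_of_le (idx_le_of_act hv), hi⟩
      · have : st (Pool.Agent.H583R2.idx v) = v := Pool.Agent.H583R2.str_idx v
        show Mk K O (st (Pool.Agent.H583R2.idx v)) s i
        rw [this]
        exact h
    refine (measure_mono h1).trans ((measure_biUnion_finset_le _ _).trans ?_)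
    have h2 : ∀ c ∈ (Finset.range (s + 1)) ×ˢ (Finset.range 2),
        randomOracle {O | Mk K O (st c.1) s c.2} ≤ ENNReal.ofReal ((1 / 2) ^ bd s) := by
      intro c _
      exact prob_mk K _ s _
    refine (Finset.sum_le_sum h2).trans ?_
    rw [Finset.sum_const, Finset.card_product, Finset.card_range, Finset.card_range,
      nsmul_eq_mul, ← ENNReal.ofReal_natCast, ← ENNReal.ofReal_mul (by positivity)]
    apply ENNReal.ofReal_le_ofReal
    have h3 : (((s + 1 : ℕ) : ℝ)) ^ 3 ≤ 2 ^ bd s := by exact_mod_cast le_two_pow_bd s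
    have h4 : (0 : ℝ) < ((s + 1 : ℕ) : ℝ) := by positivity
    rw [one_div, inv_pow]
    push_cast at h3 h4 ⊢
    have h5 : ((2 : ℝ) ^ bd s)⁻¹ ≤ (((s : ℝ) + 1) ^ 3)⁻¹ := inv_anti₀ (by positivity) h3
    calc ((s : ℝ) + 1) * 2 * ((2 : ℝ) ^ bd s)⁻¹ ≤ ((s : ℝ) + 1) * 2 * (((s : ℝ) + 1) ^ 3)⁻¹ :=
          mul_le_mul_of_nonneg_left h5 (by positivity)
      _ = 2 * (1 / ((s : ℝ) + 1) ^ 2) := by
        field_simp
  have hsum : ∑' s, randomOracle (E s) ≠ ⊤ := by
    have h1 : Summable (fun s : ℕ => 2 * (1 / ((s + 1 : ℕ) : ℝ) ^ 2)) := by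
      refine Summable.mul_left _ ?_
      exact (summable_nat_add_iff 1).2 (Real.summable_one_div_nat_pow.2 (by norm_num))
    refine ne_top_of_le_ne_top ?_ (ENNReal.tsum_le_tsum hpr)
    rw [← ENNReal.ofReal_tsum_of_nonneg (fun s => by positivity) h1]
    exact ENNReal.ofReal_ne_top
  have h2 : ∀ᵐ O ∂randomOracle, ∀ᶠ s in atTop, O ∉ E s := ae_eventually_notMem hsum
  filter_upwards [h2] with O hO
  obtain ⟨s₀, hs₀⟩ := eventually_atTop.1 hO
  exact ⟨s₀, fun s hs v hv i hi h => hs₀ s hs ⟨v, hv, i, hi, h⟩⟩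

end Pool.Agent.TH771.CS
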